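import Pool.Agent.H93.GT.Targets
import Pool.Agent.H51.ET.SEG

/-!
Module PIP: the pipe lemma.
-/

set_option autoImplicit false

namespace Pool.Agent.H14.GT

open MeasureTheory AddCircle Finset Filter Topology Pool.Agent.H87.Synth Pool.Agent.H85.SC
open Pool.Agent.H93.ET Pool.Agent.H93.GT
open Pool.Agent.H51.ET (seg_tail)

lemma ex_idx {c : ℕ → ℕ} (hc : StrictMono c) {A : ℕ} (h0 : c 0 ≤ A) :
    ∃ a, c a ≤ A ∧ A < c (a + 1) := by
  classical
  have h1 : ∃ n, A < c n := ⟨A + 1, lt_of_lt_of_le (Nat.lt_succ_self A) (hc.le_apply)⟩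
  have h2 := Nat.find_spec h1
  have h3 : Nat.find h1 ≠ 0 := by
    intro h
    rw [h] at h2
    omega
  obtain ⟨a, ha⟩ := Nat.exists_eq_succ_of_ne_zero h3
  refine ⟨a, ?_, ?_⟩
  · have h4 := Nat.find_min h1 (m := a) (by omega)
    omega
  · rw [ha] at h2
    exact h2

lemma min_summable {d : ℕ → ℝ} (hd : ∀ n, 0 < d n) (hs : Summable (fun n => 1 / d n ^ 2))
    {C : ℕ} (hC : 0 < C) :
    Summable (fun n : ℕ => 1 / (min (d n / C) ((n : ℝ) + 1)) ^ 2) := by
  have hC0 : (0 : ℝ) < C := by exact_mod_cast hC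
  have s1 : Summable (fun n : ℕ => 1 / (d n / C) ^ 2) := by
    have := hs.mul_left ((C : ℝ) ^ 2)
    refine this.congr fun n => ?_
    have := hd n
    field_simp
  have s2 : Summable (fun n : ℕ => 1 / ((n : ℝ) + 1) ^ 2) := by
    have h1 := (summable_nat_add_iff 1).2 (Real.summable_one_div_nat_pow.2 one_lt_two)
    refine h1.congr fun n => ?_
    push_cast
    rfl
  refine Summable.of_nonneg_of_le (fun n => by positivity) (fun n => ?_) (s1.add s2)
  have h1 : 0 ≤ 1 / (d n / C) ^ 2 := by positivity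
  have h2 : 0 ≤ 1 / ((n : ℝ) + 1) ^ 2 := by positivity
  rcases min_choice (d n / C) ((n : ℝ) + 1) with h | h
  · rw [h]
    linarith
  · rw [h]
    linarith

theorem pip (h1 : T_SGF) (h2 : T_BRK) : T_PIP := by
  intro d hd hdm hds C hC S ε hS hε
  have hC0 : (0 : ℝ) < C := by exact_mod_cast hC
  obtain ⟨δ, hδ, hseg⟩ := h1 S ε hS hε
  obtain ⟨c, hc, hcd, hc2, hcs⟩ := h2 (fun n => min (d n / C) ((n : ℝ) + 1))
    (fun n => lt_min (div_pos (hd n) hC0) (by positivity))
    (fun m n hmn => min_le_min (div_le_div_of_nonneg_right (hdm hmn) hC0.le) (by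
      have : (m : ℝ) ≤ n := by exact_mod_cast hmn
      linarith))
    (min_summable hd hds hC)
  obtain ⟨M, hM2, hM⟩ := seg_tail hcs hδ
  -- the lengths
  obtain ⟨l, hl⟩ : ∃ l : ℕ → ℝ, ∀ m, l m = (c (m + 1) : ℝ) - c m := ⟨_, fun _ => rfl⟩
  have hl0 : ∀ m, 0 < l m := by
    intro m
    have h3 : (c m : ℝ) < c (m + 1) := by exact_mod_cast hc (Nat.lt_succ_self m)
    rw [hl]
    linarith
  have hl1 : ∀ m, 36 * l m * C ≤ d (c m) := by
    intro m
    have h3 := (hcd m).trans (min_le_left _ _)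
    rw [← hl, le_div_iff₀ hC0] at h3
    exact h3
  have hl2 : ∀ m, 36 * l m ≤ c m + 1 := by
    intro m
    have h3 := (hcd m).trans (min_le_right _ _)
    rw [← hl] at h3
    exact h3
  have hl3 : ∀ m, l (m + 1) ≤ 2 * l m := by
    intro m
    have h3 := hc2 m
    have h4 := hc (Nat.lt_succ_self m)
    have h5 := hc (Nat.lt_succ_self (m + 1))
    have h6 : (((c (m + 2) - c (m + 1) : ℕ)) : ℝ) ≤ ((2 * (c (m + 1) - c m) : ℕ) : ℝ) := by
      exact_mod_cast h3
    rw [Nat.cast_sub h5.le, Nat.cast_mul, Nat.cast_sub h4.le] at h6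
    rw [hl, hl]
    exact_mod_cast h6
  have hl7 : ∀ m, (c (m + 3) : ℝ) - c m ≤ 7 * l m := by
    intro m
    have h3 := hl3 m
    have h4 := hl3 (m + 1)
    have e1 := hl m
    have e2 := hl (m + 1)
    have e3 := hl (m + 1 + 1)
    have : (c (m + 3) : ℝ) = c (m + 1 + 1 + 1) := rfl
    rw [this]
    linarith
  have hl15 : ∀ m, (c (m + 4) : ℝ) - c m ≤ 15 * l m := by
    intro m
    have h3 := hl3 m
    have h4 := hl3 (m + 1)
    have h5 := hl3 (m + 1 + 1)
    have e1 := hl7 m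
    have e2 := hl (m + 3)
    have e3 : l (m + 3) = l (m + 1 + 1 + 1) := rfl
    have : (c (m + 4) : ℝ) = c (m + 3 + 1) := rfl
    rw [this]
    linarith
  refine ⟨c (M + 1) + 100, fun A B hA hAB => ?_⟩
  have hA100 : 100 ≤ A := by omega
  have hc0A : c 0 ≤ A := (hc.monotone (Nat.zero_le (M + 1))).trans (by omega)
  obtain ⟨a, ha1, ha2⟩ := ex_idx hc hc0A
  obtain ⟨e, he1, he2⟩ := ex_idx hc (A := B) (by omega)
  have haM : M ≤ a + 1 := by
    have h3 : c (M + 1) < c (a + 1) := lt_of_le_of_lt (by omega) ha2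
    have h4 := hc.lt_iff_lt.1 h3
    omega
  have hae : a + 3 ≤ e := by
    have h3 : (c (a + 3) : ℝ) ≤ B := by
      have h4 := hl7 a
      have h5 := hl2 a
      have h6 : (c a : ℝ) ≤ A := by exact_mod_cast ha1
      have h7 : 2 * (A : ℝ) ≤ B := by exact_mod_cast hAB
      have h8 : (100 : ℝ) ≤ A := by exact_mod_cast hA100
      linarith
    have h4 : c (a + 3) ≤ B := by exact_mod_cast h3
    have h5 := hc.lt_iff_lt.1 (lt_of_le_of_lt h4 he2)
    omega
  obtain ⟨N, hN⟩ : ∃ N, N = e - a - 1 := ⟨_, rfl⟩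
  have hN2 : 2 ≤ N := by omega
  have hNe : e = a + N + 1 := by omega
  obtain ⟨b, hb⟩ : ∃ b : ℕ → ℕ, ∀ m, b m = if m = 0 then A else if m < N then c (a + 1 + m)
      else B := ⟨_, fun _ => rfl⟩
  have b0 : b 0 = A := by rw [hb, if_pos rfl]
  have bN : b N = B := by rw [hb, if_neg (by omega), if_neg (lt_irrefl N)]
  have bm : ∀ m, 0 < m → m < N → b m = c (a + 1 + m) := by
    intro m h3 h4
    rw [hb, if_neg h3.ne', if_pos h4]
  -- bounds
  have F1 : ∀ m, m ≤ N → c (a + m) ≤ b m ∧ b m ≤ c (a + m + 2) := by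
    intro m hm
    rcases Nat.eq_zero_or_pos m with h | h
    · rw [h, b0]
      exact ⟨ha1, ha2.le.trans (hc.monotone (by omega))⟩
    · rcases Nat.lt_or_ge m N with h' | h'
      · rw [bm m h h']
        exact ⟨hc.monotone (by omega), hc.monotone (by omega)⟩
      · have : m = N := le_antisymm hm h'
        rw [this, bN]
        rw [hNe] at he1 he2
        exact ⟨(hc.monotone (by omega)).trans he1, he2.le⟩
  have F2 : ∀ m, m < N → b m ≤ c (a + 1 + m) ∧ c (a + 1 + m + 1) ≤ b (m + 1) := by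
    intro m hm
    constructor
    · rcases Nat.eq_zero_or_pos m with h | h
      · rw [h, b0]
        exact ha2.le
      · rw [bm m h hm]
    · rcases Nat.lt_or_ge (m + 1) N with h' | h'
      · rw [bm (m + 1) (Nat.succ_pos m) h']
        exact le_of_eq rfl
      · have : m + 1 = N := le_antisymm hm h'
        rw [this, bN]
        rw [hNe] at he1
        have e1 : a + 1 + m + 1 = a + N + 1 := by omega
        rw [e1]
        exact he1
  have hlt : ∀ m, m < N → b m < b (m + 1) := by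
    intro m hm
    have h3 := F2 m hm
    have h4 : c (a + 1 + m) < c (a + 1 + m + 1) := hc (Nat.lt_succ_self _)
    omega
  have hAb : ∀ m, m ≤ N → 100 ≤ b m := by
    intro m hm
    induction m with
    | zero => rw [b0]; exact hA100
    | succ k ih => exact (ih (by omega)).trans (hlt k (by omega)).le
  have hlen1 : ∀ m, m < N → (b (m + 1) : ℝ) - b m ≤ 7 * l (a + m) := by
    intro m hm
    have h3 : (c (a + m) : ℝ) ≤ b m := by exact_mod_cast (F1 m hm.le).1
    have h4 : (b (m + 1) : ℝ) ≤ c (a + m + 3) := by exact_mod_cast (F1 (m + 1) hm).2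
    have h5 := hl7 (a + m)
    linarith
  have hlen2 : ∀ m, m + 1 < N → (b (m + 2) : ℝ) - b m ≤ 15 * l (a + m) := by
    intro m hm
    have h3 : (c (a + m) : ℝ) ≤ b m := by exact_mod_cast (F1 m (by omega)).1
    have h4 : (b (m + 2) : ℝ) ≤ c (a + m + 4) := by exact_mod_cast (F1 (m + 2) hm).2
    have h5 := hl15 (a + m)
    linarith
  have hdm1 : ∀ m, m ≤ N → d (c (a + m)) ≤ d (b m) := fun m hm => hdm (F1 m hm).1
  have hsum : ∑ m ∈ range N, 1 / ((b (m + 1) : ℝ) - b m) ≤ δ := by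
    have h3 := hM (a + 1) (a + 1 + N) haM
    rw [Finset.sum_Ico_eq_sum_range, Nat.add_sub_cancel_left] at h3
    refine le_trans (Finset.sum_le_sum fun m hm => ?_) h3
    have hm := Finset.mem_range.1 hm
    have h4 : (b m : ℝ) ≤ c (a + 1 + m) := by exact_mod_cast (F2 m hm).1
    have h5 : (c (a + 1 + m + 1) : ℝ) ≤ b (m + 1) := by exact_mod_cast (F2 m hm).2
    have h6 := hl0 (a + 1 + m)
    rw [hl] at h6
    exact one_div_le_one_div_of_le h6 (by linarith)
  obtain ⟨g, g1, g2, g3⟩ := hseg b N (by omega) (by rw [b0]; omega) hlt hsum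
  choose! T hT1 hT2 hT3 using g3
  refine ⟨N, b, g, T, by omega, b0, bN, fun m hm => ⟨hlt m hm, ?_⟩, fun m hm => ?_,
    fun m hm => ?_, g1, g2, fun m hm => ⟨hT1 m hm, hT2 m hm, hT3 m hm⟩⟩
  · have h3 := hlen1 m hm
    have h4 := hl2 (a + m)
    have h5 : (c (a + m) : ℝ) ≤ b m := by exact_mod_cast (F1 m hm.le).1
    have h6 : (100 : ℝ) ≤ b m := by exact_mod_cast hAb m hm.le
    have h7 : (b (m + 1) : ℝ) ≤ 2 * b m := by linarith
    exact_mod_cast h7
  · have h3 := hlen1 m hm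
    have h4 := hl1 (a + m)
    have h5 := hdm1 m hm.le
    have h6 := hl0 (a + m)
    have h7 := mul_le_mul_of_nonneg_left h3 hC0.le
    have h8 : 0 < l (a + m) * C := mul_pos h6 hC0
    linarith
  · have h3 := hlen2 m hm
    have h4 := hl1 (a + m)
    have h5 := hdm1 m (by omega)
    have h6 := hl0 (a + m)
    have h7 := mul_le_mul_of_nonneg_left h3 hC0.le
    have h8 : 0 < l (a + m) * C := mul_pos h6 hC0
    linarith

end Pool.Agent.H14.GT
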