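import Pool.Agent.H93.GT.Targets
import Pool.Agent.H51.ET.SEG

/-!
Module SGF: the segment lemma for finitely many windows.
-/

set_option autoImplicit false

namespace Pool.Agent.H14.GT

open MeasureTheory AddCircle Finset Filter Topology Pool.Agent.H87.Synth Pool.Agent.H85.SC
open Pool.Agent.H93.ET Pool.Agent.H93.GT
open Pool.Agent.H51.ET (trap_one trap_zero seg_window)

theorem seg_core (h1 : T_KKL) (h2 : T_CUT) {b : ℕ → ℕ} (hb : StrictMono b) {S ε : ℝ}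
    (hS : 0 < S) (hε : 0 < ε) {δ : ℝ} (hδ : δ = min 1 ((ε / (600 * S)) ^ 2)) {m0 m1 : ℕ}
    (hm01 : m0 < m1) (hbm0 : 2 ≤ b m0)
    (hsum : ∑ m ∈ Finset.Ico m0 m1, 1 / ((b (m + 1) : ℝ) - b m) ≤ δ) : ∃ g : ℤ → ℝ,
    (∀ t, g t ≠ 0 → (b m0 : ℤ) ≤ 2 * |t| ∧ |t| < 2 * (b m1 : ℤ)) ∧
    (∀ w : ℂ, ‖w‖ = 1 →
      ‖∑ t ∈ Finset.Ioo (-(2 * (b m1 : ℤ))) (2 * (b m1 : ℤ)), (g t : ℂ) * w ^ t‖ ≤ ε) ∧
    ∀ m, m0 ≤ m → m < m1 → ∃ T : Finset ℤ, T ⊆ Finset.Ico (b m : ℤ) (b (m + 1)) ∧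
      (∀ t ∈ T, g t ≠ 0) ∧ ∑ t ∈ T, |g t| = S := by
  classical
  obtain ⟨l, hl⟩ : ∃ l : ℕ → ℝ, ∀ m, l m = (b (m + 1) : ℝ) - b m := ⟨_, fun _ => rfl⟩
  have hl0 : ∀ m, 0 < l m := by
    intro m
    have h3 : (b m : ℝ) < b (m + 1) := by exact_mod_cast hb (Nat.lt_succ_self m)
    rw [hl]
    linarith
  have hD := hsum
  simp only [← hl] at hD
  obtain ⟨D, hDd⟩ : ∃ D : ℝ, D = ∑ m ∈ Finset.Ico m0 m1, 1 / l m := ⟨_, rfl⟩
  rw [← hDd] at hD
  have hD0 : 0 < D := by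
    rw [hDd]
    exact Finset.sum_pos (fun m _ => by have := hl0 m; positivity)
      ⟨m0, Finset.mem_Ico.2 ⟨le_rfl, hm01⟩⟩
  obtain ⟨B, hB⟩ : ∃ B : ℝ, B = 2 * S * Real.sqrt D := ⟨_, rfl⟩
  have hB0 : 0 < B := by rw [hB]; positivity
  obtain ⟨W, hW⟩ : ∃ W : ℕ → Finset ℤ, ∀ m, W m = Finset.Ico (b m : ℤ) (b (m + 1)) :=
    ⟨_, fun _ => rfl⟩
  have hWc : ∀ m, ((W m).card : ℝ) = l m := by
    intro m
    have h3 : b m ≤ b (m + 1) := (hb (Nat.lt_succ_self m)).le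
    rw [hW, Int.card_Ico, hl]
    have h4 : ((b (m + 1) : ℤ) - b m).toNat = b (m + 1) - b m := by omega
    rw [h4, Nat.cast_sub h3]
  have hWd : ∀ m m' t, t ∈ W m → t ∈ W m' → m = m' := by
    intro m m' t ht ht'
    rw [hW, Finset.mem_Ico] at ht ht'
    by_contra hne
    rcases Nat.lt_or_gt_of_ne hne with h | h
    · have h3 : b (m + 1) ≤ b m' := hb.monotone (by omega)
      omega
    · have h3 : b (m' + 1) ≤ b m := hb.monotone (by omega)
      omega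
  have hWb : ∀ m ∈ Finset.Ico m0 m1, ∀ t ∈ W m, (b m0 : ℤ) ≤ t ∧ t < b m1 := by
    intro m hm t ht
    obtain ⟨h3, h4⟩ := Finset.mem_Ico.1 hm
    rw [hW, Finset.mem_Ico] at ht
    have h5 : b m0 ≤ b m := hb.monotone h3
    have h6 : b (m + 1) ≤ b m1 := hb.monotone h4
    omega
  have hbm1 : b m0 < b m1 := hb hm01
  obtain ⟨Q, hQ⟩ : ∃ Q : Finset ℤ, Q = (Finset.Ico m0 m1).biUnion W := ⟨_, rfl⟩
  have hQs : ∀ f : ℤ → ℝ, ∑ t ∈ Q, f t = ∑ m ∈ Finset.Ico m0 m1, ∑ t ∈ W m, f t := by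
    intro f
    rw [hQ, Finset.sum_biUnion]
    intro m _ m' _ hmm
    rw [Function.onFun, Finset.disjoint_left]
    intro t ht ht'
    exact hmm (hWd m m' t ht ht')
  obtain ⟨β, hβ⟩ : ∃ β : ℤ → ℝ, ∀ t, β t =
      ∑ m ∈ Finset.Ico m0 m1, if t ∈ W m then 2 * S / l m else 0 := ⟨_, fun _ => rfl⟩
  have hβW : ∀ m ∈ Finset.Ico m0 m1, ∀ t ∈ W m, β t = 2 * S / l m := by
    intro m hm t ht
    rw [hβ, Finset.sum_eq_single m, if_pos ht]
    · intro m' _ hne
      rw [if_neg]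
      intro h
      exact hne (hWd m' m t h ht)
    · intro h
      exact absurd hm h
  have hQpos : ∀ t ∈ Q, 0 < t := by
    intro t ht
    rw [hQ, Finset.mem_biUnion] at ht
    obtain ⟨m, hm, ht⟩ := ht
    have := (hWb m hm t ht).1
    omega
  have hβ0 : ∀ t ∈ Q, 0 ≤ β t := by
    intro t _
    rw [hβ]
    refine Finset.sum_nonneg fun m _ => ?_
    split_ifs
    · have := hl0 m
      positivity
    · exact le_rfl
  have hβs : ∑ t ∈ Q, β t ^ 2 ≤ B ^ 2 := by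
    rw [hQs]
    have h3 : ∀ m ∈ Finset.Ico m0 m1, ∑ t ∈ W m, β t ^ 2 = 4 * S ^ 2 * (1 / l m) := by
      intro m hm
      have h4 : ∑ t ∈ W m, β t ^ 2 = ∑ _t ∈ W m, (2 * S / l m) ^ 2 :=
        Finset.sum_congr rfl fun t ht => by rw [hβW m hm t ht]
      have h5 := hl0 m
      rw [h4, Finset.sum_const, nsmul_eq_mul, hWc]
      field_simp
      ring
    rw [Finset.sum_congr rfl h3, ← Finset.mul_sum, ← hDd, hB, mul_pow, mul_pow,
      Real.sq_sqrt hD0.le]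
    apply le_of_eq
    ring
  obtain ⟨H, hHc, hHb, hHβ, hHs⟩ := h1 Q β B hQpos hβ0 hB0 hβs
  obtain ⟨a, ha⟩ : ∃ a : ℤ → ℝ, ∀ t, a t = ∫ x, H x * cs t x ∂haarAddCircle := ⟨_, fun _ => rfl⟩
  simp only [← ha] at hHβ hHs
  obtain ⟨g0, hg0⟩ : ∃ g0 : ℤ → ℝ, ∀ t, g0 t =
      trap (b m1) (2 * b m1) t * a t - trap (b m0 / 2) (b m0) t * a t := ⟨_, fun _ => rfl⟩
  have hA1 : b m1 < 2 * b m1 := by omega
  have hA2 : b m0 / 2 < b m0 := by omega
  have hg0W : ∀ m ∈ Finset.Ico m0 m1, ∀ t ∈ W m, g0 t = a t := by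
    intro m hm t ht
    obtain ⟨h3, h4⟩ := hWb m hm t ht
    have h5 : |t| = t := abs_of_nonneg (by omega)
    rw [hg0, trap_one hA1 (by rw [h5]; omega), trap_zero hA2 (by rw [h5]; omega)]
    ring
  have hg0supp : ∀ t, g0 t ≠ 0 → (b m0 : ℤ) ≤ 2 * |t| ∧ |t| < 2 * (b m1 : ℤ) := by
    intro t ht
    constructor
    · by_contra h
      apply ht
      rw [hg0, trap_one hA1 (by omega), trap_one hA2 (by omega)]
      ring
    · by_contra h
      apply ht
      rw [hg0, trap_zero hA1 (by push_cast; omega), trap_zero hA2 (by omega)]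
      ring
  -- the windows
  have hwin : ∀ m ∈ Finset.Ico m0 m1, ∃ T : Finset ℤ, ∃ x : ℤ, ∃ c : ℝ, T ⊆ W m ∧ x ∈ T ∧
      c ≠ 0 ∧ (∀ t ∈ T, a t ≠ 0) ∧ ∑ t ∈ T.erase x, |a t| + |c| = S ∧
      |c - a x| ≤ Real.sqrt (2 / l m) * Real.sqrt (∑ t ∈ W m, a t ^ 2) := by
    intro m hm
    refine seg_window (W m) (l m) (hl0 m) (hWc m) a hS fun t ht => ?_
    rw [← hβW m hm t ht]
    exact hHβ t (by rw [hQ, Finset.mem_biUnion]; exact ⟨m, hm, ht⟩)
  choose! T x c hT1 hT2 hT3 hT4 hT5 hT6 using hwin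
  have hxW : ∀ m ∈ Finset.Ico m0 m1, x m ∈ W m := fun m hm => hT1 m hm (hT2 m hm)
  obtain ⟨g, hg⟩ : ∃ g : ℤ → ℝ, ∀ t, g t = g0 t +
      ∑ m ∈ Finset.Ico m0 m1, if t = x m then c m - a (x m) else 0 := ⟨_, fun _ => rfl⟩
  have hgx : ∀ m ∈ Finset.Ico m0 m1, g (x m) = c m := by
    intro m hm
    rw [hg, Finset.sum_eq_single m, if_pos rfl, hg0W m hm _ (hxW m hm)]
    · ring
    · intro m' hm' hne
      rw [if_neg]
      intro h
      have h3 := hxW m' hm'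
      rw [← h] at h3
      exact hne (hWd m' m _ h3 (hxW m hm))
    · intro h
      exact absurd hm h
  have hgn : ∀ t, (∀ m ∈ Finset.Ico m0 m1, t ≠ x m) → g t = g0 t := by
    intro t ht
    rw [hg, Finset.sum_eq_zero fun m hm => if_neg (ht m hm), add_zero]
  have hgT : ∀ m ∈ Finset.Ico m0 m1, ∀ t ∈ (T m).erase (x m), g t = a t := by
    intro m hm t ht
    obtain ⟨h3, h4⟩ := Finset.mem_erase.1 ht
    have h5 := hT1 m hm h4
    rw [hgn t, hg0W m hm t h5]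
    intro m' hm' h
    have h6 := hxW m' hm'
    rw [← h] at h6
    have h7 := hWd m' m t h6 h5
    rw [h7] at h
    exact h3 h
  refine ⟨g, fun t ht => ?_, fun w hw => ?_, fun m hm hm' => ?_⟩
  · by_cases h : ∀ m ∈ Finset.Ico m0 m1, t ≠ x m
    · rw [hgn t h] at ht
      exact hg0supp t ht
    · push Not at h
      obtain ⟨m, hm, rfl⟩ := h
      obtain ⟨h3, h4⟩ := hWb m hm _ (hxW m hm)
      have h5 : |x m| = x m := abs_of_nonneg (by omega)
      rw [h5]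
      constructor <;> omega
  · obtain ⟨I, hI⟩ : ∃ I : Finset ℤ, I = Finset.Ioo (-(2 * (b m1 : ℤ))) (2 * (b m1 : ℤ)) :=
      ⟨_, rfl⟩
    rw [← hI]
    have hxI : ∀ m ∈ Finset.Ico m0 m1, x m ∈ I := by
      intro m hm
      obtain ⟨h3, h4⟩ := hWb m hm _ (hxW m hm)
      rw [hI, Finset.mem_Ioo]
      constructor <;> omega
    have hw0 : w ≠ 0 := by
      rintro rfl
      norm_num at hw
    have e1 : ∑ t ∈ I, (g t : ℂ) * w ^ t =
        ∑ t ∈ I, ((trap (b m1) (2 * b m1) t * a t : ℝ) : ℂ) * w ^ t -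
        ∑ t ∈ I, ((trap (b m0 / 2) (b m0) t * a t : ℝ) : ℂ) * w ^ t +
        ∑ m ∈ Finset.Ico m0 m1, ((c m - a (x m) : ℝ) : ℂ) * w ^ (x m) := by
      have e2 : ∀ t ∈ I, (g t : ℂ) * w ^ t =
          ((trap (b m1) (2 * b m1) t * a t : ℝ) : ℂ) * w ^ t -
          ((trap (b m0 / 2) (b m0) t * a t : ℝ) : ℂ) * w ^ t +
          ∑ m ∈ Finset.Ico m0 m1, if t = x m then ((c m - a (x m) : ℝ) : ℂ) * w ^ t else 0 := by
        intro t _
        rw [hg, hg0]
        have e3 : ∑ m ∈ Finset.Ico m0 m1, (if t = x m then ((c m - a (x m) : ℝ) : ℂ) * w ^ t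
            else 0) =
            ((∑ m ∈ Finset.Ico m0 m1, if t = x m then c m - a (x m) else 0 : ℝ) : ℂ) * w ^ t := by
          rw [Complex.ofReal_sum, Finset.sum_mul]
          refine Finset.sum_congr rfl fun m _ => ?_
          split_ifs
          · rfl
          · rw [Complex.ofReal_zero, zero_mul]
        rw [e3, Complex.ofReal_add, Complex.ofReal_sub]
        ring
      rw [Finset.sum_congr rfl e2, Finset.sum_add_distrib, Finset.sum_sub_distrib,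
        Finset.sum_comm]
      congr 1
      refine Finset.sum_congr rfl fun m hm => ?_
      rw [Finset.sum_ite_eq' I (x m) (fun t => ((c m - a (x m) : ℝ) : ℂ) * w ^ t),
        if_pos (hxI m hm)]
    have n1 : ‖∑ t ∈ I, ((trap (b m1) (2 * b m1) t * a t : ℝ) : ℂ) * w ^ t‖ ≤ 3 * (38 * B) := by
      have h3 := h2 (b m1) (2 * b m1) (by omega) hA1 (by omega) H (38 * B) hHc hHb (2 * b m1)
        le_rfl w hw
      simp only [← ha] at h3
      push_cast at h3 ⊢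
      rw [hI]
      exact h3
    have n2 : ‖∑ t ∈ I, ((trap (b m0 / 2) (b m0) t * a t : ℝ) : ℂ) * w ^ t‖ ≤ 3 * (38 * B) := by
      have h3 := h2 (b m0 / 2) (b m0) (by omega) hA2 (by omega) H (38 * B) hHc hHb (2 * b m1)
        (by omega) w hw
      simp only [← ha] at h3
      push_cast at h3 ⊢
      rw [hI]
      exact h3
    have n3 : ‖∑ m ∈ Finset.Ico m0 m1, ((c m - a (x m) : ℝ) : ℂ) * w ^ (x m)‖ ≤ 57 * B := by
      calc ‖∑ m ∈ Finset.Ico m0 m1, ((c m - a (x m) : ℝ) : ℂ) * w ^ (x m)‖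
          ≤ ∑ m ∈ Finset.Ico m0 m1, ‖((c m - a (x m) : ℝ) : ℂ) * w ^ (x m)‖ := norm_sum_le _ _
        _ ≤ ∑ m ∈ Finset.Ico m0 m1,
            Real.sqrt (2 / l m) * Real.sqrt (∑ t ∈ W m, a t ^ 2) := by
            refine Finset.sum_le_sum fun m hm => ?_
            rw [norm_mul, norm_zpow, hw, one_zpow, mul_one, Complex.norm_real, Real.norm_eq_abs]
            exact hT6 m hm
        _ ≤ Real.sqrt (∑ m ∈ Finset.Ico m0 m1, 2 / l m) *
            Real.sqrt (∑ m ∈ Finset.Ico m0 m1, ∑ t ∈ W m, a t ^ 2) :=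
            Real.sum_sqrt_mul_sqrt_le _ (fun m => by have := hl0 m; positivity)
              (fun m => Finset.sum_nonneg fun _ _ => sq_nonneg _)
        _ ≤ Real.sqrt (2 * 1) * (38 * B) := by
            refine mul_le_mul (Real.sqrt_le_sqrt ?_) ?_ (Real.sqrt_nonneg _)
              (Real.sqrt_nonneg _)
            · have h3 : ∑ m ∈ Finset.Ico m0 m1, 2 / l m = 2 * D := by
                rw [hDd, Finset.mul_sum]
                exact Finset.sum_congr rfl fun m _ => by ring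
              rw [h3]
              have h4 : D ≤ 1 := hD.trans (by rw [hδ]; exact min_le_left _ _)
              linarith
            · rw [← hQs]
              exact Real.sqrt_le_iff.2 ⟨by positivity, hHs⟩
        _ ≤ (3 / 2) * (38 * B) := by
            refine mul_le_mul_of_nonneg_right ?_ (by positivity)
            rw [mul_one]
            exact Real.sqrt_le_iff.2 ⟨by norm_num, by norm_num⟩
        _ = 57 * B := by ring
    have hBε : 300 * B ≤ ε := by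
      have h3 : Real.sqrt D ≤ ε / (600 * S) := by
        refine Real.sqrt_le_iff.2 ⟨by positivity, ?_⟩
        exact hD.trans (by rw [hδ]; exact min_le_right _ _)
      rw [hB]
      rw [le_div_iff₀ (by positivity)] at h3
      linarith
    rw [e1]
    have n4 := norm_add_le (∑ t ∈ I, ((trap (b m1) (2 * b m1) t * a t : ℝ) : ℂ) * w ^ t -
        ∑ t ∈ I, ((trap (b m0 / 2) (b m0) t * a t : ℝ) : ℂ) * w ^ t)
        (∑ m ∈ Finset.Ico m0 m1, ((c m - a (x m) : ℝ) : ℂ) * w ^ (x m))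
    have n5 := norm_sub_le (∑ t ∈ I, ((trap (b m1) (2 * b m1) t * a t : ℝ) : ℂ) * w ^ t)
        (∑ t ∈ I, ((trap (b m0 / 2) (b m0) t * a t : ℝ) : ℂ) * w ^ t)
    linarith
  · have hmI : m ∈ Finset.Ico m0 m1 := Finset.mem_Ico.2 ⟨hm, hm'⟩
    refine ⟨T m, ?_, fun t ht => ?_, ?_⟩
    · rw [← hW]
      exact hT1 m hmI
    · by_cases h : t = x m
      · rw [h, hgx m hmI]
        exact hT3 m hmI
      · rw [hgT m hmI t (Finset.mem_erase.2 ⟨h, ht⟩)]
        exact hT4 m hmI t ht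
    · rw [← Finset.add_sum_erase (T m) (fun t => |g t|) (hT2 m hmI)]
      rw [hgx m hmI, Finset.sum_congr rfl fun t ht => by rw [hgT m hmI t ht], add_comm]
      exact hT5 m hmI

theorem sgf (h1 : T_KKL) (h2 : T_CUT) : T_SGF := by
  intro S ε hS hε
  refine ⟨min 1 ((ε / (600 * S)) ^ 2), lt_min one_pos (by positivity), ?_⟩
  intro b N hN hb0 hb hsum
  obtain ⟨b', hb'⟩ : ∃ b' : ℕ → ℕ, ∀ m, b' m = if m ≤ N then b m else b N + (m - N) :=
    ⟨_, fun _ => rfl⟩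
  have hbs : StrictMono b' := by
    apply strictMono_nat_of_lt_succ
    intro m
    rw [hb', hb']
    rcases lt_trichotomy m N with h | h | h
    · rw [if_pos h.le, if_pos (by omega)]
      exact hb m h
    · rw [if_pos h.le, if_neg (by omega), h]
      omega
    · rw [if_neg (by omega), if_neg (by omega)]
      omega
  have e0 : b' 0 = b 0 := by rw [hb', if_pos (by omega)]
  have eN : b' N = b N := by rw [hb', if_pos le_rfl]
  have em : ∀ m, m < N → b' m = b m ∧ b' (m + 1) = b (m + 1) := by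
    intro m hm
    rw [hb', hb', if_pos hm.le, if_pos (by omega)]
    exact ⟨rfl, rfl⟩
  have hs : ∑ m ∈ Finset.Ico 0 N, 1 / ((b' (m + 1) : ℝ) - b' m) ≤
      min 1 ((ε / (600 * S)) ^ 2) := by
    refine le_trans (le_of_eq ?_) hsum
    rw [← Finset.range_eq_Ico]
    refine Finset.sum_congr rfl fun m hm => ?_
    rw [(em m (Finset.mem_range.1 hm)).1, (em m (Finset.mem_range.1 hm)).2]
  obtain ⟨g, g1, g2, g3⟩ := seg_core h1 h2 hbs hS hε rfl hN (by rw [e0]; exact hb0) hs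
  rw [e0, eN] at g1
  rw [eN] at g2
  refine ⟨g, g1, g2, fun m hm => ?_⟩
  have h4 := g3 m (Nat.zero_le m) hm
  rw [(em m hm).1, (em m hm).2] at h4
  exact h4

end Pool.Agent.H14.GT
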